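import Pool.Agent.helper33.RF.SpecL

/-! Project RF (MP_16912e_nt), row YPL: the primes of `OO` above a prime number `l ≠ 5`. -/

set_option autoImplicit false

namespace Pool.Agent.RF

open NumberField

theorem YPL_neq (x : OO) : x.norm = x.re ^ 2 + x.re * x.im - x.im ^ 2 := by
  rw [QuadraticAlgebra.norm_def]
  ring

theorem YPL_mul (x : OO) : x * star x = (x.norm : OO) := by
  have := QuadraticAlgebra.algebraMap_norm_eq_mul_star x
  rw [← this]
  rfl

theorem YPL_dvd {x y : OO} (h : x ∣ y) : x.norm ∣ y.norm := by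
  obtain ⟨c, rfl⟩ := h
  exact ⟨c.norm, map_mul _ _ _⟩

/-- the norm of a prime above `l` -/
theorem YPL_norm {l : ℕ} (hl : l.Prime) {π : OO} (hp : Prime π) (hd : π ∣ (l : OO)) :
    π.norm.natAbs = l ∨ π.norm.natAbs = l ^ 2 := by
  have h1 := Int.natAbs_dvd_natAbs.2 (YPL_dvd hd)
  rw [QuadraticAlgebra.norm_natCast, Int.natAbs_pow, Int.natAbs_natCast] at h1
  obtain ⟨k, hk, he⟩ := (Nat.dvd_prime_pow hl).1 h1
  have hu : π.norm.natAbs ≠ 1 := fun h => hp.not_isUnit
    (QuadraticAlgebra.isUnit_iff_norm_isUnit.2 (Int.isUnit_iff_natAbs_eq.2 h))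
  interval_cases k
  · rw [pow_zero] at he
    exact absurd he hu
  · rw [pow_one] at he
    exact Or.inl he
  · exact Or.inr he

theorem YPL_ln {l : ℕ} (hl : l.Prime) {π : OO} (hp : Prime π) (hd : π ∣ (l : OO)) : (l : ℤ) ∣ π.norm := by
  rcases YPL_norm hl hp hd with h | h
  · rw [← h]
    exact Int.natAbs_dvd.2 dvd_rfl
  · have h1 : (l : ℤ) ∣ (π.norm.natAbs : ℤ) := by
      rw [h]
      push_cast
      exact dvd_pow_self _ two_ne_zero
    exact Int.dvd_natAbs.1 h1

theorem YPL_int {l : ℕ} (hl : l.Prime) {π : OO} (hp : Prime π) (hd : π ∣ (l : OO)) (m : ℤ) (hm : π ∣ (m : OO)) : (l : ℤ) ∣ m := by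
  have h1 := (YPL_ln hl hp hd).trans (YPL_dvd hm)
  rw [QuadraticAlgebra.norm_intCast] at h1
  exact (Nat.prime_iff_prime_int.1 hl).dvd_of_dvd_pow h1

theorem YPL_nd {l : ℕ} (hl : l.Prime) (h5 : l ≠ 5) {π : OO} (hn : π.norm.natAbs = l) : ¬ π ∣ star π := by
  intro h
  have hpi := Nat.prime_iff_prime_int.1 hl
  have hln : (l : ℤ) ∣ π.norm := by
    rw [← hn]
    exact Int.natAbs_dvd.2 dvd_rfl
  have h1 : π ∣ π - star π := dvd_sub dvd_rfl h
  have e1 : π - star π = ⟨-π.im, 2 * π.im⟩ := by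
    ext
    · rw [QuadraticAlgebra.re_sub, QuadraticAlgebra.re_star]
      ring
    · rw [QuadraticAlgebra.im_sub, QuadraticAlgebra.im_star]
      ring
  rw [e1] at h1
  have h2 := hln.trans (YPL_dvd h1)
  rw [YPL_neq] at h2
  have e2 : (-π.im) ^ 2 + -π.im * (2 * π.im) - (2 * π.im) ^ 2 = -(5 * π.im ^ 2) := by ring
  have h3 : (l : ℤ) ∣ 5 * π.im ^ 2 := by
    rw [← dvd_neg, ← e2]
    exact h2
  have him : (l : ℤ) ∣ π.im := by
    rcases hpi.dvd_or_dvd h3 with h4 | h4
    · exfalso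
      have h6 : l ∣ 5 := by exact_mod_cast h4
      exact h5 ((Nat.prime_dvd_prime_iff_eq hl Nat.prime_five).1 h6)
    · exact hpi.dvd_of_dvd_pow h4
  have hre : (l : ℤ) ∣ π.re := by
    have h6 : (l : ℤ) ∣ π.re ^ 2 := by
      have e3 : π.re ^ 2 = π.norm - π.re * π.im + π.im ^ 2 := by
        rw [YPL_neq]
        ring
      rw [e3]
      exact dvd_add (dvd_sub hln (him.mul_left _)) (dvd_pow him two_ne_zero)
    exact hpi.dvd_of_dvd_pow h6
  obtain ⟨a, ha⟩ := hre
  obtain ⟨b, hb⟩ := him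
  have h7 : (l : ℤ) ^ 2 ∣ π.norm := by
    refine ⟨a ^ 2 + a * b - b ^ 2, ?_⟩
    rw [YPL_neq, ha, hb]
    ring
  have h8 := Int.natAbs_dvd_natAbs.2 h7
  rw [Int.natAbs_pow, Int.natAbs_natCast, hn] at h8
  have h9 := Nat.le_of_dvd hl.pos h8
  have h10 := hl.one_lt
  nlinarith

theorem YPL_lmul {l : ℕ} {π : OO} (hn : π.norm.natAbs = l) : Associated (l : OO) (π * star π) := by
  rw [YPL_mul]
  rcases Int.natAbs_eq π.norm with h | h
  · rw [h, hn]
    simp
  · rw [h, hn]
    push_cast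
    exact (Associated.refl (l : OO)).neg_right

theorem YPL_sq [IsDomain OO] {l : ℕ} (hl : l.Prime) (h5 : l ≠ 5) {π : OO} (hp : Prime π) (hd : π ∣ (l : OO)) : ¬ π ^ 2 ∣ (l : OO) := by
  intro h
  rcases YPL_norm hl hp hd with hn | hn
  · have h1 : π * π ∣ π * star π := by
      rw [← sq]
      exact h.trans (YPL_lmul hn).dvd
    exact YPL_nd hl h5 hn ((mul_dvd_mul_iff_left hp.ne_zero).1 h1)
  · have h1 := Int.natAbs_dvd_natAbs.2 (YPL_dvd h)
    rw [QuadraticAlgebra.norm_natCast, map_pow, Int.natAbs_pow, hn, Int.natAbs_pow, Int.natAbs_natCast] at h1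
    have h2 := Nat.le_of_dvd (pow_pos hl.pos 2) h1
    have h3 : l ^ 2 < (l ^ 2) ^ 2 := by
      have h4 : 1 < l ^ 2 := Nat.one_lt_pow two_ne_zero hl.one_lt
      nlinarith
    exact absurd h2 (not_le.2 h3)

theorem YPL_star {π : OO} (hp : Prime π) : Prime (star π) := by
  have h := (MulEquiv.prime_iff (starRingAut : OO ≃+* OO) (p := π)).2 hp
  exact h

theorem YPL_proof (hWEU : WEU_stmt) : YPL_stmt := by
  obtain ⟨hdom, hpid⟩ := hWEU
  intro l hl h5
  classical
  have hl0 : (l : OO) ≠ 0 := by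
    intro h
    have := congrArg QuadraticAlgebra.norm h
    rw [QuadraticAlgebra.norm_natCast, QuadraticAlgebra.norm_zero] at this
    have h1 : (l : ℤ) = 0 := pow_eq_zero_iff two_ne_zero |>.1 this
    exact hl.ne_zero (by exact_mod_cast h1)
  have hlu : ¬ IsUnit (l : OO) := by
    intro h
    have h1 := Int.isUnit_iff_natAbs_eq.1 (QuadraticAlgebra.isUnit_iff_norm_isUnit.1 h)
    rw [QuadraticAlgebra.norm_natCast, Int.natAbs_pow, Int.natAbs_natCast] at h1
    have h2 := hl.two_le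
    nlinarith
  obtain ⟨π, hirr, hd⟩ := WfDvdMonoid.exists_irreducible_factor hlu hl0
  have hp : Prime π := hirr.prime
  rcases YPL_norm hl hp hd with hn | hn
  · -- split
    have hs : Prime (star π) := YPL_star hp
    have hlm := YPL_lmul hn
    have hds : star π ∣ (l : OO) := (dvd_mul_left _ _).trans hlm.dvd'
    refine ⟨{π, star π}, Finset.card_le_two, ?_, ?_, ?_⟩
    · intro ρ hρ
      rw [Finset.mem_insert, Finset.mem_singleton] at hρ
      rcases hρ with rfl | rfl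
      · exact ⟨hp, hd, YPL_sq hl h5 hp hd, YPL_int hl hp hd⟩
      · exact ⟨hs, hds, YPL_sq hl h5 hs hds, YPL_int hl hs hds⟩
    · intro ρ hρ hρd
      rcases hρ.dvd_or_dvd (hρd.trans hlm.dvd) with h | h
      · exact ⟨π, by simp, (Prime.dvd_prime_iff_associated hρ hp).1 h⟩
      · exact ⟨star π, by simp, (Prime.dvd_prime_iff_associated hρ hs).1 h⟩
    · intro m x hx
      have h1 := hx π (by simp)
      have h2 := hx (star π) (by simp)
      have hc : IsCoprime π (star π) := hirr.coprime_iff_not_dvd.2 (YPL_nd hl h5 hn)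
      have h3 : π ^ m * star π ^ m ∣ x := IsCoprime.mul_dvd hc.pow h1 h2
      rw [← mul_pow] at h3
      exact (pow_dvd_pow_of_dvd hlm.dvd m).trans h3
  · -- inert
    have hass : Associated π (l : OO) := by
      obtain ⟨c, hc⟩ := hd
      have h1 : (l : ℤ) ^ 2 = π.norm * c.norm := by
        rw [← map_mul, ← hc, QuadraticAlgebra.norm_natCast]
      have h2 : l ^ 2 = l ^ 2 * c.norm.natAbs := by
        have := congrArg Int.natAbs h1
        rw [Int.natAbs_pow, Int.natAbs_natCast, Int.natAbs_mul, hn] at this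
        exact this
      have h3 : c.norm.natAbs = 1 := by
        have h4 : 0 < l ^ 2 := pow_pos hl.pos 2
        exact (Nat.eq_of_mul_eq_mul_left h4 (by rw [mul_one]; exact h2)).symm
      have hcu : IsUnit c := QuadraticAlgebra.isUnit_iff_norm_isUnit.2 (Int.isUnit_iff_natAbs_eq.2 h3)
      obtain ⟨u, rfl⟩ := hcu
      exact ⟨u, hc.symm⟩
    refine ⟨{π}, by simp, ?_, ?_, ?_⟩
    · intro ρ hρ
      rw [Finset.mem_singleton] at hρ
      rw [hρ]
      exact ⟨hp, hd, YPL_sq hl h5 hp hd, YPL_int hl hp hd⟩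
    · intro ρ hρ hρd
      exact ⟨π, by simp, (Prime.dvd_prime_iff_associated hρ hp).1 (hρd.trans hass.dvd')⟩
    · intro m x hx
      exact (pow_dvd_pow_of_dvd hass.dvd' m).trans (hx π (by simp))

end Pool.Agent.RF
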